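import Mathlib

set_option autoImplicit false

namespace Pool.Agent.Results.MP_d594f7_lc.CesaroRamsey

open Set Filter Topology MeasureTheory

/-- The space of infinite subsets of `ω`: a set is given by its characteristic function, and the
topology is the subspace topology of the Cantor space `2^ω`. -/
abbrev InfSub : Type := {x : ℕ → Bool // {n | x n = true}.Infinite}

/-- The infinite set of natural numbers coded by a point. -/
def supp (x : InfSub) : Set ℕ := {n | x.1 n = true}

/-- The basic set `[s, A]`. -/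
def basic (s : Finset ℕ) (A : Set ℕ) : Set InfSub :=
  {x | (s : Set ℕ) ⊆ supp x ∧ supp x ⊆ (s : Set ℕ) ∪ A ∧
    ∀ n, (n ∈ supp x ∧ ∃ m ∈ s, n ≤ m) ↔ n ∈ s}

/-- Ramsey null sets. -/
def RamseyNull (N : Set InfSub) : Prop :=
  ∀ (s : Finset ℕ) (A : Set ℕ), A.Infinite → (∀ m ∈ s, ∀ a ∈ A, m < a) →
    ∃ B : Set ℕ, B ⊆ A ∧ B.Infinite ∧ basic s B ∩ N = ∅

/-- The Cesaro averages `F_n = (1/n) ∑_{m<n} f_m`. -/
noncomputable def cesaro (f : ℕ → InfSub → ℝ) (n : ℕ) (x : InfSub) : ℝ :=
  (1 / (n : ℝ)) * ∑ m ∈ Finset.range n, f m x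

/-- The counterexample: `f_m x = 1` if `x` has an odd number of elements `≤ m`, else `0`. -/
noncomputable def g (m : ℕ) (x : InfSub) : ℝ :=
  ((Nat.count (fun n => x.1 n = true) (m + 1) % 2 : ℕ) : ℝ)

theorem g_cases (m : ℕ) (x : InfSub) : g m x = 0 ∨ g m x = 1 := by
  unfold g
  rcases Nat.mod_two_eq_zero_or_one (Nat.count (fun n => x.1 n = true) (m + 1)) with h | h
  · left; rw [h]; simp
  · right; rw [h]; simp

theorem g_continuous (m : ℕ) : Continuous (g m) := by
  have h1 : ∀ k : ℕ, Continuous (fun x : InfSub => Nat.count (fun n => x.1 n = true) k) := by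
    intro k
    induction k with
    | zero => simpa using continuous_const
    | succ k ih =>
      have : (fun x : InfSub => Nat.count (fun n => x.1 n = true) (k + 1)) =
          fun x : InfSub => Nat.count (fun n => x.1 n = true) k + (if x.1 k = true then 1 else 0) := by
        funext x
        rw [Nat.count_succ]
      rw [this]
      refine ih.add ?_
      have h2 : Continuous (fun x : InfSub => x.1 k) :=
        (continuous_apply k).comp continuous_subtype_val
      exact (continuous_of_discreteTopology (f := fun b : Bool => if b = true then 1 else 0)).comp h2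
  exact (continuous_of_discreteTopology (f := fun c : ℕ => ((c % 2 : ℕ) : ℝ))).comp (h1 (m + 1))

theorem count_eq (p : ℕ → Prop) [DecidablePred p] (hp : {n | p n}.Infinite) (i m : ℕ)
    (h1 : Nat.nth p i ≤ m) (h2 : m < Nat.nth p (i + 1)) : Nat.count p (m + 1) = i + 1 := by
  refine le_antisymm (Nat.le_nth_of_count_le h2) ?_
  rw [← Nat.count_nth_succ_of_infinite hp i]
  exact Nat.count_monotone p (Nat.succ_le_succ h1)

/-- A sparse infinite subset of the range of a strictly increasing sequence. -/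
theorem exists_sparse (n : ℕ → ℕ) (hn : StrictMono n) :
    ∃ k : ℕ → ℕ, StrictMono k ∧ (∀ i, 1 ≤ n (k i)) ∧ ∀ i, 10 * n (k i) ≤ n (k (i + 1)) := by
  let k : ℕ → ℕ := fun i => Nat.rec 1 (fun _ r => 10 * n r) i
  have h0 : k 0 = 1 := rfl
  have hs : ∀ i, k (i + 1) = 10 * n (k i) := fun i => rfl
  have hk1 : ∀ i, 1 ≤ k i := by
    intro i
    induction i with
    | zero => rw [h0]
    | succ i ih =>
      rw [hs]
      have := hn.id_le (k i)
      simp only [id] at this
      omega
  refine ⟨k, strictMono_nat_of_lt_succ fun i => ?_, fun i => ?_, fun i => ?_⟩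
  · have h1 := hn.id_le (k i)
    have h2 := hk1 i
    simp only [id] at h1
    rw [hs]
    omega
  · have h1 := hn.id_le (k i)
    have h2 := hk1 i
    simp only [id] at h1
    omega
  · have h1 := hn.id_le (k (i + 1))
    simp only [id] at h1
    rw [hs] at h1 ⊢
    exact h1

theorem diverges (n : ℕ → ℕ) (hn : StrictMono n) (k : ℕ → ℕ) (hk : StrictMono k)
    (h1 : ∀ i, 1 ≤ n (k i)) (h10 : ∀ i, 10 * n (k i) ≤ n (k (i + 1)))
    (x : InfSub) (hx : supp x ⊆ range (fun i => n (k i))) (l : ℝ)
    (hl : Tendsto (fun j => cesaro g (n j) x) atTop (𝓝 l)) : False := by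
  set p : ℕ → Prop := fun m => x.1 m = true with hp
  have hinf : {m | p m}.Infinite := x.2
  have hlac : ∀ i j, i < j → 10 * n (k i) ≤ n (k j) := by
    intro i j hij
    refine le_trans (h10 i) (hn.monotone (hk.monotone ?_))
    omega
  -- the enumeration of `x`
  have hmem : ∀ i, ∃ j, n (k j) = Nat.nth p i := fun i => hx (Nat.nth_mem_of_infinite hinf i)
  choose J hJ using hmem
  have hJmono : StrictMono J := by
    intro a b hab
    have : n (k (J a)) < n (k (J b)) := by
      rw [hJ, hJ]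
      exact Nat.nth_strictMono hinf hab
    exact hk.lt_iff_lt.1 (hn.lt_iff_lt.1 this)
  have hstep : ∀ i, 10 * Nat.nth p i ≤ Nat.nth p (i + 1) := by
    intro i
    rw [← hJ i, ← hJ (i + 1)]
    exact hlac _ _ (hJmono (Nat.lt_succ_self i))
  have hpos : ∀ i, 1 ≤ Nat.nth p i := by
    intro i
    rw [← hJ i]
    exact h1 _
  have hval : ∀ i m, Nat.nth p i ≤ m → m < Nat.nth p (i + 1) →
      g m x = (((i + 1) % 2 : ℕ) : ℝ) := by
    intro i m ha hb
    unfold g
    rw [count_eq p hinf i m ha hb]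
  have hg0 : ∀ m, 0 ≤ g m x := fun m => by
    rcases g_cases m x with h | h <;> rw [h] <;> norm_num
  have hg1 : ∀ m, g m x ≤ 1 := fun m => by
    rcases g_cases m x with h | h <;> rw [h] <;> norm_num
  -- splitting of the sum
  have hsum : ∀ i, ∑ m ∈ Finset.range (Nat.nth p (i + 1)), g m x =
      ∑ m ∈ Finset.range (Nat.nth p i), g m x +
        ((Nat.nth p (i + 1) : ℝ) - Nat.nth p i) * (((i + 1) % 2 : ℕ) : ℝ) := by
    intro i
    have hle : Nat.nth p i ≤ Nat.nth p (i + 1) := by
      have := hstep i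
      omega
    rw [← Finset.sum_range_add_sum_Ico _ hle]
    congr 1
    rw [Finset.sum_congr rfl (fun m hm => hval i m (Finset.mem_Ico.1 hm).1
      (Finset.mem_Ico.1 hm).2)]
    rw [Finset.sum_const, Nat.card_Ico, nsmul_eq_mul, Nat.cast_sub hle]
  have hlow : ∀ i, 0 ≤ ∑ m ∈ Finset.range (Nat.nth p i), g m x := fun i =>
    Finset.sum_nonneg fun m _ => hg0 m
  have hup : ∀ i, ∑ m ∈ Finset.range (Nat.nth p i), g m x ≤ Nat.nth p i := by
    intro i
    calc ∑ m ∈ Finset.range (Nat.nth p i), g m x ≤ ∑ m ∈ Finset.range (Nat.nth p i), (1 : ℝ) :=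
          Finset.sum_le_sum fun m _ => hg1 m
      _ = Nat.nth p i := by simp
  have hsubseq : ∀ φ : ℕ → ℕ, StrictMono φ →
      Tendsto (fun i => cesaro g (Nat.nth p (φ i)) x) atTop (𝓝 l) := by
    intro φ hφ
    have h2 : StrictMono (fun i => k (J (φ i))) := fun a b hab => hk (hJmono (hφ hab))
    have h3 := hl.comp h2.tendsto_atTop
    refine h3.congr fun i => ?_
    simp only [Function.comp]
    rw [hJ]
  have heven := hsubseq (fun i => 2 * i + 1) (fun a b hab => by dsimp only; omega)
  have hodd := hsubseq (fun i => 2 * i + 1 + 1) (fun a b hab => by dsimp only; omega)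
  have hge : ∀ i, (9 / 10 : ℝ) ≤ cesaro g (Nat.nth p (2 * i + 1)) x := by
    intro i
    have hs := hsum (2 * i)
    have hmod : (2 * i + 1) % 2 = 1 := by omega
    rw [hmod] at hs
    have hp1 : (0 : ℝ) < (Nat.nth p (2 * i + 1) : ℝ) := by exact_mod_cast hpos (2 * i + 1)
    have h10' : (10 : ℝ) * (Nat.nth p (2 * i) : ℝ) ≤ (Nat.nth p (2 * i + 1) : ℝ) := by
      exact_mod_cast hstep (2 * i)
    have h0 := hlow (2 * i)
    unfold cesaro
    rw [one_div, inv_mul_eq_div, le_div_iff₀ hp1, hs]
    push_cast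
    linarith
  have hle : ∀ i, cesaro g (Nat.nth p (2 * i + 1 + 1)) x ≤ (1 / 10 : ℝ) := by
    intro i
    have hs := hsum (2 * i + 1)
    have hmod : (2 * i + 1 + 1) % 2 = 0 := by omega
    rw [hmod] at hs
    have hp1 : (0 : ℝ) < (Nat.nth p (2 * i + 1 + 1) : ℝ) := by
      exact_mod_cast hpos (2 * i + 1 + 1)
    have h10' : (10 : ℝ) * (Nat.nth p (2 * i + 1) : ℝ) ≤ (Nat.nth p (2 * i + 1 + 1) : ℝ) := by
      exact_mod_cast hstep (2 * i + 1)
    have h0 := hup (2 * i + 1)
    unfold cesaro
    rw [one_div, inv_mul_eq_div, div_le_iff₀ hp1, hs]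
    push_cast
    linarith
  have hA : (9 / 10 : ℝ) ≤ l := ge_of_tendsto' heven hge
  have hB : l ≤ (1 / 10 : ℝ) := le_of_tendsto' hodd hle
  linarith

/-- The set of points at which the subsequence converges. -/
def ConvergesAt (f : ℕ → InfSub → ℝ) (n : ℕ → ℕ) (x : InfSub) : Prop :=
  ∃ l : ℝ, Tendsto (fun k => cesaro f (n k) x) atTop (𝓝 l)

theorem not_null (n : ℕ → ℕ) (hn : StrictMono n) (N : Set InfSub)
    (hN : {x | ¬ ConvergesAt g n x} ⊆ N) : ¬ RamseyNull N := by
  intro hR
  obtain ⟨k, hk, h1, h10⟩ := exists_sparse n hn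
  have hAinf : (range (fun i => n (k i))).Infinite :=
    infinite_range_of_injective (hn.comp hk).injective
  obtain ⟨B, hBA, hB, hemp⟩ := hR ∅ _ hAinf (by simp)
  classical
  let x : InfSub := ⟨fun m => decide (m ∈ B), by simpa using hB⟩
  have hxB : supp x = B := by
    ext m
    simp [supp, x]
  have hmem : x ∈ basic ∅ B := by
    refine ⟨by simp, ?_, ?_⟩
    · rw [hxB]
      exact subset_union_right
    · intro m
      simp
  have hxN : x ∉ N := fun h => by
    have : x ∈ basic ∅ B ∩ N := ⟨hmem, h⟩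
    rw [hemp] at this
    exact this
  have hc : ConvergesAt g n x := by
    by_contra hcon
    exact hxN (hN hcon)
  obtain ⟨l, hl⟩ := hc
  exact diverges n hn k hk h1 h10 x (by rw [hxB]; exact hBA) l hl

theorem result :
    ∃ f : ℕ → InfSub → ℝ,
      (∀ m, Continuous (f m)) ∧
      (∀ m, Measurable[borel InfSub] (f m)) ∧
      (∀ m x, f m x = 0 ∨ f m x = 1) ∧
      ∀ n : ℕ → ℕ, StrictMono n →
        ¬ RamseyNull {x | ¬ ConvergesAt f n x} ∧
        ¬ ∃ N : Set InfSub, MeasurableSet[borel InfSub] N ∧ RamseyNull N ∧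
          ∀ x, x ∉ N → ConvergesAt f n x := by
  refine ⟨g, g_continuous, fun m => ?_, g_cases, fun n hn => ⟨?_, ?_⟩⟩
  · exact @Continuous.measurable InfSub ℝ _ (borel InfSub)
      (@OpensMeasurableSpace.mk InfSub _ (borel InfSub) le_rfl) _ _ _ _ (g_continuous m)
  · exact not_null n hn _ (subset_refl _)
  · rintro ⟨N, _, hN, hconv⟩
    refine not_null n hn N (fun x hx => ?_) hN
    by_contra h
    exact hx (hconv x h)

end Pool.Agent.Results.MP_d594f7_lc.CesaroRamsey
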